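import Mathlib

/-!
# MP_9cfc50_lc : at most `2^|U|` regular models, tight or not

Finite ground normal programs over a finite set `α` of atoms.  Truth values are the elements of
`Fin 3`, where `0`, `1`, `2` stand for the truth values `0`, `1/2`, `1`; negation `1 - x` is
`Fin.rev`.
-/

namespace Pool.Agent.Results.MP_9cfc50_lc.RegularBound

open Finset

/-- A ground normal rule `head ← pos, ¬ neg`. -/
structure Rule (α : Type*) where
  head : α
  pos : Finset α
  neg : Finset α

variable {α : Type*}

/-- Value of the body of `r` in the reduct with respect to `I`, under `J`: the minimum of the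
values `J b` for `b` positive in the body and of the constants `1 - I c` for `c` negative. -/
def bodyVal (r : Rule α) (I J : α → Fin 3) : Fin 3 :=
  (r.pos.inf J) ⊓ (r.neg.inf fun c => Fin.rev (I c))

/-- `J` is a three-valued model of the reduct `P^I`. -/
def IsModel (P : Set (Rule α)) (I J : α → Fin 3) : Prop :=
  ∀ r ∈ P, bodyVal r I J ≤ J r.head

/-- `I` is a stable partial model of `P`: it is the least (in the truth order) three-valued model
of the reduct `P^I`. -/
def Stable (P : Set (Rule α)) (I : α → Fin 3) : Prop :=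
  IsLeast {J | IsModel P I J} I

/-- The information order: `J` agrees with `I` wherever `I` is not `1/2`. -/
def KLe (I J : α → Fin 3) : Prop := ∀ a, I a ≠ 1 → J a = I a

/-- A regular model is a stable partial model that is maximal in the information order among
stable partial models. -/
def Regular (P : Set (Rule α)) (I : α → Fin 3) : Prop :=
  Stable P I ∧ ∀ J, Stable P J → KLe I J → J = I

/-- Positive arcs of the atom dependency graph. -/
def PosArc (P : Set (Rule α)) (u v : α) : Prop := ∃ r ∈ P, r.head = v ∧ u ∈ r.pos

/-- Negative arcs of the atom dependency graph. -/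
def NegArc (P : Set (Rule α)) (u v : α) : Prop := ∃ r ∈ P, r.head = v ∧ u ∈ r.neg

/-- An elementary directed cycle of length `n ≥ 1` of the atom dependency graph: the pairwise
distinct vertices are `c 0, …, c (n-1)`, and `c n = c 0`; the arc `c i → c (i+1)` used is negative
if `s i` and positive otherwise. -/
structure IsCycle (P : Set (Rule α)) (n : ℕ) (c : ℕ → α) (s : ℕ → Bool) : Prop where
  pos : 0 < n
  inj : Set.InjOn c (Set.Iio n)
  closed : c n = c 0
  arc : ∀ i < n, if s i then NegArc P (c i) (c (i + 1)) else PosArc P (c i) (c (i + 1))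

/-- `U` meets every even cycle (a cycle with an even number of negative arcs). -/
def MeetsEvenCycles (P : Set (Rule α)) (U : Finset α) : Prop :=
  ∀ (n : ℕ) (c : ℕ → α) (s : ℕ → Bool), IsCycle P n c s →
    Even ((Finset.range n).filter (fun i => s i = true)).card → ∃ i < n, c i ∈ U

/-! ### Basic facts on bodies -/

theorem bodyVal_mono (r : Rule α) (I : α → Fin 3) {J J' : α → Fin 3} (h : ∀ a, J a ≤ J' a) :
    bodyVal r I J ≤ bodyVal r I J' := by
  unfold bodyVal
  refine inf_le_inf ?_ le_rfl
  exact Finset.inf_mono_fun fun a _ => h a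

theorem bodyVal_eq_two {r : Rule α} {I J : α → Fin 3} :
    bodyVal r I J = 2 ↔ (∀ b ∈ r.pos, J b = 2) ∧ ∀ c ∈ r.neg, I c = 0 := by
  have h2 : (2 : Fin 3) = ⊤ := rfl
  unfold bodyVal
  rw [h2, inf_eq_top_iff, Finset.inf_eq_top_iff, Finset.inf_eq_top_iff]
  refine and_congr Iff.rfl ?_
  refine forall₂_congr fun c _ => ?_
  generalize I c = x
  revert x
  decide

theorem bodyVal_eq_zero {r : Rule α} {I J : α → Fin 3} :
    bodyVal r I J = 0 ↔ (∃ b ∈ r.pos, J b = 0) ∨ ∃ c ∈ r.neg, I c = 2 := by
  constructor
  · intro h
    by_contra hcon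
    push Not at hcon
    have h1 : (1 : Fin 3) ≤ bodyVal r I J := by
      unfold bodyVal
      refine le_inf ?_ ?_
      · refine Finset.le_inf fun b hb => ?_
        have := hcon.1 b hb
        revert this
        generalize J b = x
        revert x
        decide
      · refine Finset.le_inf fun c hc => ?_
        have := hcon.2 c hc
        revert this
        generalize I c = x
        revert x
        decide
    rw [h] at h1
    exact absurd h1 (by decide)
  · rintro (⟨b, hb, h⟩ | ⟨c, hc, h⟩)
    · have : bodyVal r I J ≤ 0 := by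
        unfold bodyVal
        refine inf_le_left.trans ?_
        rw [← h]
        exact Finset.inf_le hb
      exact le_antisymm this (Fin.zero_le _)
    · have : bodyVal r I J ≤ 0 := by
        unfold bodyVal
        refine inf_le_right.trans ?_
        have h0 : Fin.rev (I c) = 0 := by rw [h]; rfl
        rw [← h0]
        exact Finset.inf_le (f := fun c => Fin.rev (I c)) hc
      exact le_antisymm this (Fin.zero_le _)

/-! ### The operator `Γ` -/

section Gamma

variable [Fintype α] [DecidableEq α]

open Classical in
/-- The least model of the reduct `P^I`. -/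
noncomputable def Gam (P : Set (Rule α)) (I : α → Fin 3) : α → Fin 3 := fun a =>
  (Finset.univ.filter (fun J : α → Fin 3 => IsModel P I J)).inf (fun J => J a)

theorem gam_isLeast (P : Set (Rule α)) (I : α → Fin 3) :
    IsLeast {J | IsModel P I J} (Gam P I) := by
  classical
  have hle : ∀ J, IsModel P I J → ∀ a, Gam P I a ≤ J a := by
    intro J hJ a
    unfold Gam
    exact Finset.inf_le (f := fun J : α → Fin 3 => J a) (by simpa using hJ)
  refine ⟨?_, fun J hJ => hle J hJ⟩
  intro r hr
  show _ ≤ (Finset.univ.filter (fun J : α → Fin 3 => IsModel P I J)).inf (fun J => J r.head)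
  refine Finset.le_inf fun J hJ => ?_
  have hJ' : IsModel P I J := by simpa using hJ
  exact (bodyVal_mono r I (hle J hJ')).trans (hJ' r hr)

theorem stable_iff (P : Set (Rule α)) (I : α → Fin 3) : Stable P I ↔ Gam P I = I := by
  constructor
  · intro h
    exact (gam_isLeast P I).unique h
  · intro h
    have := gam_isLeast P I
    rw [h] at this
    exact this

theorem klE_iff {I J : α → Fin 3} : KLe I J ↔ (∀ a, I a = 2 → J a = 2) ∧ ∀ a, I a = 0 → J a = 0 := by
  unfold KLe
  constructor
  · intro h
    refine ⟨fun a ha => ?_, fun a ha => ?_⟩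
    · rw [h a (by rw [ha]; decide), ha]
    · rw [h a (by rw [ha]; decide), ha]
  · rintro ⟨h1, h2⟩ a ha
    have : I a = 0 ∨ I a = 2 := by
      revert ha
      generalize I a = x
      revert x
      decide
    rcases this with h | h
    · rw [h, h2 a h]
    · rw [h, h1 a h]

theorem gam_mono (P : Set (Rule α)) {I I' : α → Fin 3} (h : KLe I I') :
    KLe (Gam P I) (Gam P I') := by
  rw [klE_iff] at h ⊢
  obtain ⟨h2, h0⟩ := h
  refine ⟨fun a ha => ?_, fun a ha => ?_⟩
  · -- the value one is preserved
    by_contra hne
    have hm : IsModel P I (fun b => if Gam P I' b = 2 then 2 else 1) := by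
      intro r hr
      by_cases hb : bodyVal r I (fun b => if Gam P I' b = 2 then 2 else 1) = 2
      · rw [bodyVal_eq_two] at hb
        have hb' : bodyVal r I' (Gam P I') = 2 := by
          rw [bodyVal_eq_two]
          refine ⟨fun b hbp => ?_, fun c hc => h0 c (hb.2 c hc)⟩
          have := hb.1 b hbp
          by_contra hcon
          simp only [hcon, if_false] at this
          exact absurd this (by decide)
        have hh : (2 : Fin 3) ≤ Gam P I' r.head := by
          rw [← hb']
          exact (gam_isLeast P I').1 r hr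
        have hh' : Gam P I' r.head = 2 := by
          revert hh
          generalize Gam P I' r.head = x
          revert x
          decide
        simp only [hh', if_true]
        exact Fin.le_last _
      · have h1 : bodyVal r I (fun b => if Gam P I' b = 2 then 2 else 1) ≤ 1 := by
          revert hb
          generalize bodyVal r I (fun b => if Gam P I' b = 2 then 2 else 1) = x
          revert x
          decide
        refine h1.trans ?_
        by_cases hx : Gam P I' r.head = 2
        · simp [hx]
        · simp [hx]
    have := (gam_isLeast P I).2 hm a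
    rw [ha] at this
    simp only [hne, if_false] at this
    exact absurd this (by
      show ¬ ((2 : Fin 3) ≤ 1)
      decide)
  · -- the value zero is preserved
    by_contra hne
    have hm : IsModel P I' (fun b => if Gam P I b = 0 then 0 else 2) := by
      intro r hr
      by_cases hx : Gam P I r.head = 0
      · have hb : bodyVal r I (Gam P I) = 0 := by
          have := (gam_isLeast P I).1 r hr
          rw [hx] at this
          exact le_antisymm this (Fin.zero_le _)
        rw [bodyVal_eq_zero] at hb
        have : bodyVal r I' (fun b => if Gam P I b = 0 then 0 else 2) = 0 := by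
          rw [bodyVal_eq_zero]
          rcases hb with ⟨b, hb, hb'⟩ | ⟨c, hc, hc'⟩
          · exact Or.inl ⟨b, hb, by simp [hb']⟩
          · exact Or.inr ⟨c, hc, h2 c hc'⟩
        rw [this]
        exact Fin.zero_le _
      · simp only [hx, if_false]
        exact Fin.le_last _
    have := (gam_isLeast P I').2 hm a
    simp only [ha, if_true] at this
    exact hne (le_antisymm this (Fin.zero_le _))

theorem KLe.trans {I J K : α → Fin 3} (h : KLe I J) (h' : KLe J K) : KLe I K := by
  rw [klE_iff] at *
  exact ⟨fun a ha => h'.1 a (h.1 a ha), fun a ha => h'.2 a (h.2 a ha)⟩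

/-- Above every `K` with `K ≤ₖ Γ(K)` there is a stable partial model. -/
theorem exists_stable_above (P : Set (Rule α)) (K : α → Fin 3) (hK : KLe K (Gam P K)) :
    ∃ L, Stable P L ∧ KLe K L := by
  classical
  let S : Finset (α → Fin 3) := Finset.univ.filter (fun L => KLe K L ∧ KLe L (Gam P L))
  have hS : S.Nonempty := ⟨K, by
    simp only [S, Finset.mem_filter, Finset.mem_univ, true_and]
    exact ⟨fun a _ => rfl, hK⟩⟩
  obtain ⟨L, hL, hmax⟩ := Finset.exists_max_image S
    (fun L => (Finset.univ.filter (fun a => L a ≠ 1)).card) hS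
  simp only [S, Finset.mem_filter, Finset.mem_univ, true_and] at hL
  refine ⟨L, ?_, hL.1⟩
  rw [stable_iff]
  have hG : Gam P L ∈ S := by
    simp only [S, Finset.mem_filter, Finset.mem_univ, true_and]
    exact ⟨hL.1.trans hL.2, gam_mono P hL.2⟩
  have hle := hmax _ hG
  have hsub : Finset.univ.filter (fun a => L a ≠ 1) ⊆ Finset.univ.filter (fun a => Gam P L a ≠ 1) := by
    intro a ha
    simp only [Finset.mem_filter, Finset.mem_univ, true_and] at ha ⊢
    rw [hL.2 a ha]
    exact ha
  have heq := Finset.eq_of_subset_of_card_le hsub hle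
  funext a
  by_cases ha : L a = 1
  · rw [ha]
    by_contra hcon
    have : a ∈ Finset.univ.filter (fun a => Gam P L a ≠ 1) := by simpa using hcon
    rw [← heq] at this
    simp only [Finset.mem_filter, Finset.mem_univ, true_and] at this
    exact this ha
  · exact hL.2 a ha

/-- Two distinct regular models are in conflict at some atom. -/
theorem conflict (P : Set (Rule α)) {I J : α → Fin 3} (hI : Regular P I) (hJ : Regular P J)
    (hne : I ≠ J) : ∃ a, (I a = 2 ∧ J a = 0) ∨ (I a = 0 ∧ J a = 2) := by
  classical
  by_contra hcon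
  push Not at hcon
  let K : α → Fin 3 := fun a => if I a = 1 then J a else I a
  have hIK : KLe I K := fun a ha => by simp [K, ha]
  have hJK : KLe J K := by
    intro a ha
    by_cases h1 : I a = 1
    · simp [K, h1]
    · simp only [K, h1, if_false]
      have := hcon a
      revert this ha h1
      generalize I a = x
      generalize J a = y
      revert x y
      decide
  have hK : KLe K (Gam P K) := by
    have h1 := gam_mono P hIK
    have h2 := gam_mono P hJK
    rw [(stable_iff P I).1 hI.1] at h1
    rw [(stable_iff P J).1 hJ.1] at h2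
    intro a ha
    by_cases h : I a = 1
    · have hK : K a = J a := by simp [K, h]
      rw [hK] at ha ⊢
      exact h2 a ha
    · have hK : K a = I a := by simp [K, h]
      rw [hK] at ha ⊢
      exact h1 a ha
  obtain ⟨L, hL, hKL⟩ := exists_stable_above P K hK
  have e1 := hI.2 L hL (hIK.trans hKL)
  have e2 := hJ.2 L hL (hJK.trans hKL)
  exact hne (e1.symm.trans e2)

/-- Atoms with value one are supported. -/
theorem supported (P : Set (Rule α)) {I : α → Fin 3} (hI : Stable P I) {a : α} (ha : I a = 2) :
    ∃ r ∈ P, r.head = a ∧ bodyVal r I I = 2 := by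
  by_contra hcon
  push Not at hcon
  have hle : ∀ b, Function.update I a 1 b ≤ I b := by
    intro b
    by_cases h : b = a
    · subst h
      rw [Function.update_self, ha]
      decide
    · rw [Function.update_of_ne h]
  have hm : IsModel P I (Function.update I a 1) := by
    intro r hr
    have h1 := bodyVal_mono r I hle
    by_cases h : r.head = a
    · have h2 := hcon r hr h
      rw [h, Function.update_self]
      refine h1.trans ?_
      revert h2
      generalize bodyVal r I I = x
      revert x
      decide
    · rw [Function.update_of_ne h]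
      exact h1.trans (hI.1 r hr)
  have h3 : I a ≤ Function.update I a 1 a := hI.2 hm a
  rw [Function.update_self, ha] at h3
  exact absurd h3 (by
    show ¬ ((2 : Fin 3) ≤ 1)
    decide)

/-- A conflict at `a` comes from a conflict at a predecessor of `a`. -/
theorem pred (P : Set (Rule α)) {I J : α → Fin 3} (hI : Stable P I) (hJ : Stable P J) {a : α}
    (ha : I a = 2 ∧ J a = 0) :
    ∃ b, (PosArc P b a ∧ I b = 2 ∧ J b = 0) ∨ (NegArc P b a ∧ I b = 0 ∧ J b = 2) := by
  obtain ⟨r, hr, hra, hb⟩ := supported P hI ha.1
  have h0 : bodyVal r J J = 0 := by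
    have := hJ.1 r hr
    rw [hra, ha.2] at this
    exact le_antisymm this (Fin.zero_le _)
  rw [bodyVal_eq_two] at hb
  rw [bodyVal_eq_zero] at h0
  rcases h0 with ⟨b, hb1, hb2⟩ | ⟨c, hc1, hc2⟩
  · exact ⟨b, Or.inl ⟨⟨r, hr, hra, hb1⟩, hb.1 b hb1, hb2⟩⟩
  · exact ⟨c, Or.inr ⟨⟨r, hr, hra, hc1⟩, hb.2 c hc1, hc2⟩⟩

/-- The conflict set of two stable partial models. -/
def Conf (I J : α → Fin 3) (a : α) : Prop := (I a = 2 ∧ J a = 0) ∨ (I a = 0 ∧ J a = 2)

theorem pred' (P : Set (Rule α)) {I J : α → Fin 3} (hI : Stable P I) (hJ : Stable P J) {a : α}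
    (ha : Conf I J a) :
    ∃ b, Conf I J b ∧ ((PosArc P b a ∧ I b = I a) ∨ (NegArc P b a ∧ I b ≠ I a)) := by
  rcases ha with ha | ha
  · obtain ⟨b, ⟨h, h1, h2⟩ | ⟨h, h1, h2⟩⟩ := pred P hI hJ ha
    · exact ⟨b, Or.inl ⟨h1, h2⟩, Or.inl ⟨h, by rw [h1, ha.1]⟩⟩
    · exact ⟨b, Or.inr ⟨h1, h2⟩, Or.inr ⟨h, by rw [h1, ha.1]; decide⟩⟩
  · obtain ⟨b, ⟨h, h1, h2⟩ | ⟨h, h1, h2⟩⟩ := pred P hJ hI ha.symm
    · exact ⟨b, Or.inr ⟨h2, h1⟩, Or.inl ⟨h, by rw [h2, ha.1]⟩⟩
    · exact ⟨b, Or.inl ⟨h2, h1⟩, Or.inr ⟨h, by rw [h2, ha.1]; decide⟩⟩

/-- A nonempty conflict set contains an even cycle. -/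
theorem conflict_cycle (P : Set (Rule α)) {I J : α → Fin 3} (hI : Stable P I) (hJ : Stable P J)
    {a : α} (ha : Conf I J a) :
    ∃ (n : ℕ) (c : ℕ → α) (s : ℕ → Bool), IsCycle P n c s ∧
      Even ((Finset.range n).filter (fun i => s i = true)).card ∧ ∀ i, Conf I J (c i) := by
  classical
  choose p hp1 hp2 using fun (x : {a // Conf I J a}) => pred' P hI hJ x.2
  let q : {a // Conf I J a} → {a // Conf I J a} := fun x => ⟨p x, hp1 x⟩
  have hq : ∀ x, (PosArc P (q x).1 x.1 ∧ I (q x).1 = I x.1) ∨
      (NegArc P (q x).1 x.1 ∧ I (q x).1 ≠ I x.1) := hp2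
  -- a periodic point of `q`
  have _ : Fintype {a // Conf I J a} := Fintype.ofFinite _
  obtain ⟨m, k, hmk, he⟩ := Finite.exists_ne_map_eq_of_infinite (fun n : ℕ => q^[n] ⟨a, ha⟩)
  wlog hlt : m < k generalizing m k
  · exact this k m hmk.symm he.symm (lt_of_le_of_ne (not_lt.1 hlt) hmk.symm)
  have hper : Function.IsPeriodicPt q (k - m) (q^[m] ⟨a, ha⟩) := by
    show q^[k - m] (q^[m] ⟨a, ha⟩) = q^[m] ⟨a, ha⟩
    rw [← Function.iterate_add_apply, Nat.sub_add_cancel hlt.le]
    exact he.symm
  set x := q^[m] ⟨a, ha⟩ with hx
  set n := Function.minimalPeriod q x with hn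
  have hn0 : 0 < n := hper.minimalPeriod_pos (by omega)
  have hnx : q^[n] x = x := Function.isPeriodicPt_minimalPeriod q x
  -- the cycle
  refine ⟨n, fun i => (q^[n - i] x).1, fun i => decide (I (q^[n - i] x).1 ≠ I (q^[n - (i + 1)] x).1),
    ⟨hn0, ?_, ?_, ?_⟩, ?_, fun i => (q^[n - i] x).2⟩
  · intro i hi j hj hij
    simp only [Set.mem_Iio] at hi hj
    have hij' : q^[n - i] x = q^[n - j] x := Subtype.ext hij
    have hmod : q^[(n - i) % n] x = q^[(n - j) % n] x := by
      rw [hn, Function.iterate_mod_minimalPeriod_eq, Function.iterate_mod_minimalPeriod_eq]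
      exact hij'
    have h1 := Function.iterate_injOn_Iio_minimalPeriod (f := q) (x := x)
      (Set.mem_Iio.2 (Nat.mod_lt _ hn0)) (Set.mem_Iio.2 (Nat.mod_lt _ hn0)) hmod
    rcases Nat.eq_zero_or_pos i with hi0 | hi0
    · rcases Nat.eq_zero_or_pos j with hj0 | hj0
      · omega
      · rw [hi0, Nat.sub_zero, Nat.mod_self, Nat.mod_eq_of_lt (by omega)] at h1
        omega
    · rcases Nat.eq_zero_or_pos j with hj0 | hj0
      · rw [hj0, Nat.sub_zero, Nat.mod_self, Nat.mod_eq_of_lt (by omega)] at h1
        omega
      · rw [Nat.mod_eq_of_lt (by omega), Nat.mod_eq_of_lt (by omega)] at h1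
        omega
  · simp [hnx]
  · intro i hi
    have hstep : q^[n - i] x = q (q^[n - (i + 1)] x) := by
      have : n - i = (n - (i + 1)) + 1 := by omega
      rw [this, Function.iterate_succ_apply']
    have h := hq (q^[n - (i + 1)] x)
    rw [← hstep] at h
    by_cases hs : I (q^[n - i] x).1 = I (q^[n - (i + 1)] x).1
    · simp only [hs, ne_eq, not_true_eq_false, decide_false, Bool.false_eq_true, if_false]
      rcases h with h | h
      · exact h.1
      · exact absurd hs h.2
    · simp only [ne_eq, hs, not_false_eq_true, decide_true, if_true]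
      rcases h with h | h
      · exact absurd h.2 hs
      · exact h.1
  · have hval : ∀ y : {a // Conf I J a}, I y.1 = 0 ∨ I y.1 = 2 := by
      intro y
      rcases y.2 with h | h
      · exact Or.inr h.1
      · exact Or.inl h.1
    have key : ∀ m, (Even ((Finset.range m).filter (fun i =>
        decide (I (q^[n - i] x).1 ≠ I (q^[n - (i + 1)] x).1) = true)).card ↔
        I (q^[n - m] x).1 = I (q^[n - 0] x).1) := by
      intro m
      induction m with
      | zero => simp
      | succ m ih =>
        rw [Finset.range_add_one, Finset.filter_insert]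
        have h1 := hval (q^[n - m] x)
        have h2 := hval (q^[n - (m + 1)] x)
        have h3 := hval (q^[n - 0] x)
        by_cases hs : I (q^[n - m] x).1 = I (q^[n - (m + 1)] x).1
        · simp only [ne_eq, hs, not_true_eq_false, decide_false, Bool.false_eq_true, if_false]
          rw [← hs]
          simpa using ih
        · rw [if_pos (by simpa using hs), Finset.card_insert_of_notMem (by simp), Nat.even_add_one,
            ih]
          revert h1 h2 h3 hs
          generalize I (q^[n - m] x).1 = a1
          generalize I (q^[n - (m + 1)] x).1 = a2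
          generalize I (q^[n - 0] x).1 = a3
          revert a1 a2 a3
          decide
    rw [key n]
    simp [hnx]

/-- **Theorem.**  Let `P` be a ground normal program over a finite set of atoms, tight or not, and
let `U` be a set of atoms that meets every even cycle of the atom dependency graph.  Then `P` has
at most `2^|U|` regular models.  (Moreover two distinct regular models differ on `U`, in the strong
sense that some atom of `U` is true in one and false in the other.) -/
theorem result (P : Set (Rule α)) (U : Finset α) (hU : MeetsEvenCycles P U) :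
    {I | Regular P I}.ncard ≤ 2 ^ U.card ∧
    ∀ I J, Regular P I → Regular P J → I ≠ J →
      ∃ u ∈ U, (I u = 2 ∧ J u = 0) ∨ (I u = 0 ∧ J u = 2) := by
  classical
  have hmain : ∀ I J, Regular P I → Regular P J → I ≠ J →
      ∃ u ∈ U, (I u = 2 ∧ J u = 0) ∨ (I u = 0 ∧ J u = 2) := by
    intro I J hI hJ hne
    obtain ⟨a, ha⟩ := conflict P hI hJ hne
    obtain ⟨n, c, s, hc, he, hconf⟩ := conflict_cycle P hI.1 hJ.1 (a := a) ha
    obtain ⟨i, _, hi⟩ := hU n c s hc he
    exact ⟨c i, hi, hconf i⟩
  refine ⟨?_, hmain⟩
  let φ : (α → Fin 3) → Set U := fun I => {u | I u.1 = 2}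
  have hinj : Set.InjOn φ {I | Regular P I} := by
    intro I hI J hJ hφ
    by_contra hne
    obtain ⟨u, hu, h⟩ := hmain I J hI hJ hne
    have h1 : (⟨u, hu⟩ : U) ∈ φ I ↔ (⟨u, hu⟩ : U) ∈ φ J := by rw [hφ]
    simp only [φ, Set.mem_ofPred_eq] at h1
    rcases h with h | h
    · rw [h.1, h.2] at h1
      exact absurd (h1.1 rfl) (by decide)
    · rw [h.1, h.2] at h1
      exact absurd (h1.2 rfl) (by decide)
  calc {I | Regular P I}.ncard = (φ '' {I | Regular P I}).ncard :=
        hinj.ncard_image.symm
    _ ≤ (Set.univ : Set (Set U)).ncard := Set.ncard_le_ncard (Set.subset_univ _) Set.finite_univ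
    _ = 2 ^ U.card := by
        rw [Set.ncard_univ, Nat.card_eq_fintype_card, Fintype.card_set, Fintype.card_coe]

end Gamma

end Pool.Agent.Results.MP_9cfc50_lc.RegularBound
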